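import Mathlib
set_option autoImplicit false
namespace Pool.Agent.Helper135.MS
open Finset

variable {V : Type*} [Fintype V] [DecidableEq V] (G : SimpleGraph V) [DecidableRel G.Adj]

/-- far vertices from v -/
def Wf (v : V) : Finset V := univ.filter (fun w => w ≠ v ∧ ¬ G.Adj v w)

def Af (v w : V) : Finset V := (G.neighborFinset v).filter (fun y => G.Adj w y)
def Hf (v w : V) : Finset V := (G.neighborFinset v).filter (fun y => ¬ G.Adj w y)
def Kf (v : V) (K : Finset (V × V)) (w : V) : Finset V := (G.neighborFinset v).filter (fun y => (y, w) ∈ K)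
def Uf (v : V) (K : Finset (V × V)) (w : V) : Finset V := (Hf G v w).filter (fun y => (y, w) ∉ K)
def df (v w : V) : ℕ := #((Wf G v).filter (fun x => G.Adj w x))

/-- hypotheses on certificates -/
structure Good (v : V) (K : Finset (V × V)) (z : V × V → V) : Prop where
  h1 : ∀ y w, (y, w) ∈ K → G.Adj v y
  h2 : ∀ y w, (y, w) ∈ K → w ∈ Wf G v
  h3 : ∀ y w, (y, w) ∈ K → ¬ G.Adj y w
  h4 : ∀ y w, (y, w) ∈ K → G.Adj v (z (y, w))
  h5 : ∀ y w, (y, w) ∈ K → G.Adj y (z (y, w))
  h6 : ∀ y w, (y, w) ∈ K → G.Adj (z (y, w)) w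
  h7 : ∀ y w, (y, w) ∈ K → ∀ x, G.Adj y x → G.Adj x w → x = z (y, w)
  h8 : ∀ y w w', (y, w) ∈ K → (y, w') ∈ K → z (y, w) = z (y, w') → w = w'
  h9 : ∀ y w y' w', (y, w) ∈ K → (y', w') ∈ K → s(y, z (y, w)) = s(y', z (y', w')) → y = y' ∧ w = w'

variable {G}

lemma card_A_add_H (v w : V) : #(Af G v w) + #(Hf G v w) = G.degree v := by
  unfold Af Hf
  rw [Finset.card_filter_add_card_filter_not, SimpleGraph.card_neighborFinset_eq_degree]

lemma Kf_subset_H {v : V} {K : Finset (V × V)} {z : V × V → V} (hg : Good G v K z) (w : V) :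
    Kf G v K w ⊆ Hf G v w := by
  intro y hy
  simp only [Kf, Hf, mem_filter] at *
  exact ⟨hy.1, fun h => hg.h3 y w hy.2 h.symm⟩

lemma card_K_add_U {v : V} {K : Finset (V × V)} {z : V × V → V} (hg : Good G v K z) (w : V) :
    #(Kf G v K w) + #(Uf G v K w) = #(Hf G v w) := by
  have : Kf G v K w = (Hf G v w).filter (fun y => (y, w) ∈ K) := by
    ext y
    constructor
    · intro h
      exact mem_filter.2 ⟨Kf_subset_H hg w h, (mem_filter.1 h).2⟩
    · intro h
      have h1 := (mem_filter.1 h)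
      exact mem_filter.2 ⟨(mem_filter.1 h1.1).1, h1.2⟩
  rw [this]
  unfold Uf
  rw [Finset.card_filter_add_card_filter_not]

/-- (F2) -/
lemma K_not_adj {v : V} {K : Finset (V × V)} {z : V × V → V} (hg : Good G v K z) {y w w' : V}
    (hK : (y, w) ∈ K) (hw' : w' ∈ Wf G v) (hadj : G.Adj w w') : ¬ G.Adj w' y := by
  intro h
  have h7 := hg.h7 y w hK w' h.symm hadj.symm
  have h4 := hg.h4 y w hK
  rw [← h7] at h4
  simp only [Wf, mem_filter] at hw'
  exact hw'.2.2 h4

/-- degree splitting for far vertices -/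
lemma degree_far {v w : V} (hw : w ∈ Wf G v) : G.degree w = #(Af G v w) + df G v w := by
  classical
  rw [← SimpleGraph.card_neighborFinset_eq_degree]
  have : G.neighborFinset w = Af G v w ∪ (Wf G v).filter (fun x => G.Adj w x) := by
    ext x
    simp only [SimpleGraph.mem_neighborFinset, Af, Wf, mem_union, mem_filter, mem_univ, true_and] at *
    constructor
    · intro h
      by_cases hx : G.Adj v x
      · exact Or.inl ⟨hx, h⟩
      · refine Or.inr ⟨⟨?_, hx⟩, h⟩
        rintro rfl
        exact hw.2 h.symm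
    · rintro (h | h)
      · exact h.2
      · exact h.2
  rw [this, card_union_of_disjoint]
  · rfl
  · rw [Finset.disjoint_left]
    intro x hx hx'
    simp only [Af, Wf, mem_filter, SimpleGraph.mem_neighborFinset] at hx hx'
    exact hx'.1.2.2 hx.1

lemma d_le_h {v w : V} (hmax : ∀ x, G.degree x ≤ G.degree v) (hw : w ∈ Wf G v) :
    df G v w ≤ #(Hf G v w) := by
  have h1 := degree_far hw
  have h2 := hmax w
  have h3 := card_A_add_H (G := G) v w
  omega

/-- edge inequality -/
lemma edge_ineq {v : V} {K : Finset (V × V)} {z : V × V → V} (hg : Good G v K z) {w w' : V}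
    (hw : w ∈ Wf G v) (hw' : w' ∈ Wf G v) (hadj : G.Adj w w') :
    #(Hf G v w ∪ Hf G v w') ≤ #(Uf G v K w) + #(Uf G v K w') + #(Kf G v K w ∩ Kf G v K w') := by
  classical
  have hsub : Hf G v w ∪ Hf G v w' ⊆ (Uf G v K w ∪ Uf G v K w') ∪ (Kf G v K w ∩ Kf G v K w') := by
    intro y hy
    simp only [Hf, Uf, Kf, mem_union, mem_inter, mem_filter] at *
    by_cases h1 : (y, w) ∈ K
    · have a1 := K_not_adj hg h1 hw' hadj
      by_cases h2 : (y, w') ∈ K
      · right
        exact ⟨⟨by tauto, h1⟩, ⟨by tauto, h2⟩⟩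
      · left; right
        exact ⟨⟨by tauto, a1⟩, h2⟩
    · by_cases h2 : (y, w') ∈ K
      · have a2 := K_not_adj hg h2 hw hadj.symm
        left; left
        exact ⟨⟨by tauto, a2⟩, h1⟩
      · rcases hy with hy | hy
        · left; left; exact ⟨hy, h1⟩
        · left; right; exact ⟨hy, h2⟩
  calc _ ≤ _ := card_le_card hsub
    _ ≤ _ := card_union_le _ _
    _ ≤ _ := by
      have := card_union_le (Uf G v K w) (Uf G v K w')
      omega

/-- sum of t over neighbours -/
lemma sum_t_le {v : V} {K : Finset (V × V)} {z : V × V → V} (hg : Good G v K z) {w : V}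
    (hw : w ∈ Wf G v) :
    ∑ w' ∈ (Wf G v).filter (fun x => G.Adj w x), #(Kf G v K w ∩ Kf G v K w')
      ≤ #(Kf G v K w) * #(Uf G v K w) := by
  classical
  have hswap : ∑ w' ∈ (Wf G v).filter (fun x => G.Adj w x), #(Kf G v K w ∩ Kf G v K w')
      = ∑ y ∈ Kf G v K w, #(((Wf G v).filter (fun x => G.Adj w x)).filter (fun w' => (y, w') ∈ K)) := by
    have e1 : ∀ w', #(Kf G v K w ∩ Kf G v K w') = ∑ y ∈ Kf G v K w, if (y, w') ∈ K then 1 else 0 := by
      intro w'
      rw [← Finset.card_filter]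
      congr 1
      ext y
      simp only [Kf, mem_inter, mem_filter]
      tauto
    simp_rw [e1]
    rw [Finset.sum_comm]
    apply Finset.sum_congr rfl
    intro y _
    rw [← Finset.card_filter]
  rw [hswap]
  have : ∀ y ∈ Kf G v K w, #(((Wf G v).filter (fun x => G.Adj w x)).filter (fun w' => (y, w') ∈ K)) ≤ #(Uf G v K w) := by
    intro y hy
    apply Finset.card_le_card_of_injOn (fun w' => z (y, w'))
    · intro w' hw'
      simp only [coe_filter, mem_filter, Set.mem_setOf_eq] at hw'
      obtain ⟨⟨hw1, hadj⟩, hK'⟩ := hw'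
      have hKy : (y, w) ∈ K := (mem_filter.1 hy).2
      have z4 := hg.h4 y w' hK'
      have z5 := hg.h5 y w' hK'
      have z6 := hg.h6 y w' hK'
      have hnot : ¬ G.Adj w (z (y, w')) := by
        intro hc
        have := hg.h7 y w hKy (z (y, w')) z5 hc.symm
        have := hg.h8 y w' w hK' hKy this
        subst this
        exact G.loopless.irrefl _ hadj
      have hnK : (z (y, w'), w) ∉ K := by
        intro hc
        exact K_not_adj hg hc hw1 hadj z6.symm
      simp only [Uf, Hf, coe_filter, mem_filter, Set.mem_setOf_eq, SimpleGraph.mem_neighborFinset]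
      exact ⟨⟨z4, hnot⟩, hnK⟩
    · intro a ha b hb hab
      simp only [coe_filter, mem_filter, Set.mem_setOf_eq] at ha hb
      exact hg.h8 y a b ha.2 hb.2 hab
  calc _ ≤ ∑ y ∈ Kf G v K w, #(Uf G v K w) := Finset.sum_le_sum this
    _ = _ := by rw [Finset.sum_const, smul_eq_mul]

end Pool.Agent.Helper135.MS
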