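import Mathlib
import Pool.Agent.Helper135.MS1
set_option autoImplicit false
namespace Pool.Agent.Helper135.MS
open Finset

variable {V : Type*} [Fintype V] [DecidableEq V] {G : SimpleGraph V} [DecidableRel G.Adj]

/-- pointwise inequality -/
lemma pointwise (h k d : ℝ) (hh : 0 < h) (hk : 0 ≤ k) (hkh : k ≤ h) (hd : 0 ≤ d) (hdh : d ≤ h) :
    (55/144) * d + (9/10) * ((h-k)*d/h + k*(h-k)/(2*h) - d/2) ≤ h - k := by
  have h2 : (h-k)*d/h + k*(h-k)/(2*h) - d/2 = ((h-k)*d*2 + k*(h-k) - d*h)/(2*h) := by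
    field_simp
  have h3 : (h - k) - ((55/144) * d + (9/10) * ((h-k)*d/h + k*(h-k)/(2*h) - d/2))
      = ((h-k)*h - (55/144)*d*h - (9/20)*((h-k)*d*2 + k*(h-k) - d*h))/h := by
    rw [h2]; field_simp; ring
  have h4 : 0 ≤ ((h-k)*h - (55/144)*d*h - (9/20)*((h-k)*d*2 + k*(h-k) - d*h)) := by
    nlinarith [sq_nonneg (12*h*11/2 - 12*9*k), mul_nonneg (sub_nonneg.2 hkh) hk, mul_nonneg (sub_nonneg.2 hkh) (sub_nonneg.2 hdh), mul_nonneg hd (sub_nonneg.2 hdh), mul_nonneg hk (sub_nonneg.2 hdh), sq_nonneg (11*h - 18*k), mul_nonneg hd hk]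
  have h5 : 0 ≤ (h - k) - ((55/144) * d + (9/10) * ((h-k)*d/h + k*(h-k)/(2*h) - d/2)) := by
    rw [h3]; positivity
  linarith

end Pool.Agent.Helper135.MS
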