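import Mathlib
import Pool.Agent.Helper135.MS2
set_option autoImplicit false
namespace Pool.Agent.Helper135.MS
open Finset

variable {V : Type*} [Fintype V] [DecidableEq V] {G : SimpleGraph V} [DecidableRel G.Adj]

lemma sum_swap (S : Finset V) (F : V → V → ℝ) :
    ∑ w ∈ S, ∑ w' ∈ S.filter (fun x => G.Adj w x), F w w'
      = ∑ w ∈ S, ∑ w' ∈ S.filter (fun x => G.Adj w x), F w' w := by
  simp_rw [Finset.sum_filter]
  rw [Finset.sum_comm]
  apply Finset.sum_congr rfl
  intro x _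
  apply Finset.sum_congr rfl
  intro y _
  simp only [G.adj_comm]

lemma edge_real {v : V} {K : Finset (V × V)} {z : V × V → V} (hg : Good G v K z)
    (hmax : ∀ x, G.degree x ≤ G.degree v) {w w' : V}
    (hw : w ∈ Wf G v) (hw' : w' ∈ Wf G v) (hadj : G.Adj w w') :
    (1:ℝ) ≤ (#(Uf G v K w) : ℝ) / #(Hf G v w) + (#(Uf G v K w') : ℝ) / #(Hf G v w')
      + (#(Kf G v K w ∩ Kf G v K w') : ℝ) / (2 * #(Hf G v w))
      + (#(Kf G v K w' ∩ Kf G v K w) : ℝ) / (2 * #(Hf G v w')) := by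
  have e1 := edge_ineq hg hw hw' hadj
  have p1 : 0 < #(Hf G v w) := by
    refine lt_of_lt_of_le ?_ (d_le_h hmax hw)
    unfold df
    rw [Finset.card_pos]
    exact ⟨w', mem_filter.2 ⟨hw', hadj⟩⟩
  have p2 : 0 < #(Hf G v w') := by
    refine lt_of_lt_of_le ?_ (d_le_h hmax hw')
    unfold df
    rw [Finset.card_pos]
    exact ⟨w, mem_filter.2 ⟨hw, hadj.symm⟩⟩
  have m1 : #(Hf G v w) ≤ #(Hf G v w ∪ Hf G v w') := card_le_card subset_union_left
  have m2 : #(Hf G v w') ≤ #(Hf G v w ∪ Hf G v w') := card_le_card subset_union_right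
  have hc : #(Kf G v K w' ∩ Kf G v K w) = #(Kf G v K w ∩ Kf G v K w') := by rw [inter_comm]
  rw [hc]
  generalize #(Kf G v K w ∩ Kf G v K w') = t at *
  generalize #(Hf G v w ∪ Hf G v w') = m at *
  generalize #(Hf G v w) = h at *
  generalize #(Hf G v w') = h' at *
  generalize #(Uf G v K w) = u at *
  generalize #(Uf G v K w') = u' at *
  have q1 : (0:ℝ) < h := by exact_mod_cast p1
  have q2 : (0:ℝ) < h' := by exact_mod_cast p2
  have q3 : (h:ℝ) ≤ m := by exact_mod_cast m1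
  have q4 : (h':ℝ) ≤ m := by exact_mod_cast m2
  have q5 : (m:ℝ) ≤ u + u' + t := by exact_mod_cast e1
  have q6 : (0:ℝ) < m := by linarith
  have r1 : (u:ℝ)/m ≤ u/h := by gcongr
  have r2 : (u':ℝ)/m ≤ u'/h' := by gcongr
  have r3 : (t:ℝ)/(2*m) ≤ t/(2*h) := by gcongr
  have r4 : (t:ℝ)/(2*m) ≤ t/(2*h') := by gcongr
  have r5 : (1:ℝ) ≤ (u + u' + t)/m := by rw [le_div_iff₀ q6]; linarith
  have r6 : ((u:ℝ) + u' + t)/m = u/m + u'/m + t/(2*m) + t/(2*m) := by field_simp; ring
  linarith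

lemma sum_ineq {v : V} {K : Finset (V × V)} {z : V × V → V} (hg : Good G v K z)
    (hmax : ∀ x, G.degree x ≤ G.degree v) :
    (55/144 : ℝ) * ∑ w ∈ Wf G v, (df G v w : ℝ) ≤ ∑ w ∈ Wf G v, (#(Uf G v K w) : ℝ) := by
  set W := Wf G v with hW
  set h : V → ℝ := fun w => (#(Hf G v w) : ℝ) with hh
  set u : V → ℝ := fun w => (#(Uf G v K w) : ℝ) with hu
  set k : V → ℝ := fun w => (#(Kf G v K w) : ℝ) with hk
  set d : V → ℝ := fun w => (df G v w : ℝ) with hd
  have hsumd : ∑ w ∈ W, d w = ∑ w ∈ W, ∑ w' ∈ W.filter (fun x => G.Adj w x), (1:ℝ) := by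
    apply Finset.sum_congr rfl
    intro w _
    simp [hd, df, hW]
  have step1 : ∑ w ∈ W, d w ≤ ∑ w ∈ W, ∑ w' ∈ W.filter (fun x => G.Adj w x),
      (u w / h w + u w' / h w' + (#(Kf G v K w ∩ Kf G v K w') : ℝ) / (2 * h w)
        + (#(Kf G v K w' ∩ Kf G v K w) : ℝ) / (2 * h w')) := by
    rw [hsumd]
    apply Finset.sum_le_sum
    intro w hw
    apply Finset.sum_le_sum
    intro w' hw'
    rw [mem_filter] at hw'
    exact edge_real hg hmax hw hw'.1 hw'.2
  have step2 : ∑ w ∈ W, ∑ w' ∈ W.filter (fun x => G.Adj w x),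
      (u w / h w + u w' / h w' + (#(Kf G v K w ∩ Kf G v K w') : ℝ) / (2 * h w)
        + (#(Kf G v K w' ∩ Kf G v K w) : ℝ) / (2 * h w'))
      = 2 * ∑ w ∈ W, ∑ w' ∈ W.filter (fun x => G.Adj w x), (u w / h w + (#(Kf G v K w ∩ Kf G v K w') : ℝ) / (2 * h w)) := by
    have a1 := sum_swap (G := G) W (fun _ w' => u w' / h w')
    have a2 := sum_swap (G := G) W (fun w w' => (#(Kf G v K w' ∩ Kf G v K w) : ℝ) / (2 * h w'))
    simp only [Finset.sum_add_distrib] at *
    rw [a1, a2]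
    ring
  have step3 : ∀ w ∈ W, ∑ w' ∈ W.filter (fun x => G.Adj w x), (u w / h w + (#(Kf G v K w ∩ Kf G v K w') : ℝ) / (2 * h w))
      ≤ u w * d w / h w + k w * u w / (2 * h w) := by
    intro w hw
    rw [Finset.sum_add_distrib, Finset.sum_const, ← Finset.sum_div]
    have b1 : (∑ w' ∈ W.filter (fun x => G.Adj w x), (#(Kf G v K w ∩ Kf G v K w') : ℝ)) ≤ k w * u w := by
      have := sum_t_le hg hw
      simp only [hk, hu]
      exact_mod_cast this
    have b2 : (#(W.filter (fun x => G.Adj w x))) • (u w / h w) = u w * d w / h w := by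
      rw [nsmul_eq_mul]
      have : ((#(W.filter (fun x => G.Adj w x)) : ℕ) : ℝ) = d w := rfl
      rw [this]; ring
    rw [b2]
    have b3 : 0 ≤ h w := Nat.cast_nonneg _
    gcongr
  have step4 : ∀ w ∈ W, (55/144) * d w + (9/10) * (u w * d w / h w + k w * u w / (2 * h w) - d w / 2) ≤ u w := by
    intro w hw
    have c1 : d w ≤ h w := by
      have := d_le_h hmax hw
      simp only [hd, hh]
      exact_mod_cast this
    have c2 : k w + u w = h w := by
      have := card_K_add_U hg w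
      simp only [hk, hu, hh]
      exact_mod_cast this
    have c3 : 0 ≤ k w := Nat.cast_nonneg _
    have c4 : 0 ≤ u w := Nat.cast_nonneg _
    have c5 : 0 ≤ d w := Nat.cast_nonneg _
    have c6 : u w = h w - k w := by linarith
    rcases eq_or_lt_of_le (Nat.cast_nonneg (#(Hf G v w)) : (0:ℝ) ≤ (#(Hf G v w) : ℝ)) with h0 | h0
    · have h0' : h w = 0 := h0.symm
      have e1 : d w = 0 := by linarith
      have e2 : u w = 0 := by linarith
      rw [e1, e2]; simp
    · have h0' : 0 < h w := h0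
      rw [c6]
      exact pointwise (h w) (k w) (d w) h0' c3 (by linarith) c5 c1
  have step5 : ∑ w ∈ W, ((55/144) * d w + (9/10) * (u w * d w / h w + k w * u w / (2 * h w) - d w / 2)) ≤ ∑ w ∈ W, u w :=
    Finset.sum_le_sum step4
  have step6 : ∑ w ∈ W, ((55/144) * d w + (9/10) * (u w * d w / h w + k w * u w / (2 * h w) - d w / 2))
      = (55/144) * ∑ w ∈ W, d w + (9/10) * (∑ w ∈ W, (u w * d w / h w + k w * u w / (2 * h w)) - (∑ w ∈ W, d w) / 2) := by
    rw [Finset.sum_add_distrib, ← Finset.mul_sum, ← Finset.mul_sum, Finset.sum_sub_distrib, Finset.sum_div]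
  have step7 : ∑ w ∈ W, d w ≤ 2 * ∑ w ∈ W, (u w * d w / h w + k w * u w / (2 * h w)) := by
    calc _ ≤ _ := step1
      _ = _ := step2
      _ ≤ _ := by
        apply mul_le_mul_of_nonneg_left (Finset.sum_le_sum step3) (by norm_num)
  rw [step6] at step5
  linarith

/-- card of K -/
lemma card_K_eq {v : V} {K : Finset (V × V)} {z : V × V → V} (hg : Good G v K z) :
    #K = ∑ w ∈ Wf G v, #(Kf G v K w) := by
  rw [Finset.card_eq_sum_card_fiberwise (f := Prod.snd) (t := Wf G v)]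
  · apply Finset.sum_congr rfl
    intro w _
    apply Finset.card_bij (fun p _ => p.1)
    · rintro ⟨y, w'⟩ hp
      simp only [mem_filter] at hp
      obtain ⟨hp1, rfl⟩ := hp
      simp only [Kf, mem_filter, SimpleGraph.mem_neighborFinset]
      exact ⟨hg.h1 _ _ hp1, hp1⟩
    · rintro ⟨y, w'⟩ hp ⟨y2, w2⟩ hp2 h
      simp only [mem_filter] at hp hp2 h
      rw [h, hp.2, hp2.2]
    · intro y hy
      simp only [Kf, mem_filter] at hy
      exact ⟨(y, w), by simp [hy.2], rfl⟩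
  · rintro ⟨y, w⟩ hp
    exact hg.h2 y w hp

end Pool.Agent.Helper135.MS
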