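import Mathlib
import Pool.Agent.Helper135.MS3
set_option autoImplicit false
namespace Pool.Agent.Helper135.MS
open Finset

variable {V : Type*} [Fintype V] [DecidableEq V] {G : SimpleGraph V} [DecidableRel G.Adj]

lemma degree_near {v y : V} (hy : G.Adj v y) :
    G.degree y = 1 + #((G.neighborFinset v).filter (fun x => G.Adj y x)) + #((Wf G v).filter (fun x => G.Adj y x)) := by
  rw [← SimpleGraph.card_neighborFinset_eq_degree]
  have : G.neighborFinset y = ({v} ∪ (G.neighborFinset v).filter (fun x => G.Adj y x)) ∪ (Wf G v).filter (fun x => G.Adj y x) := by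
    ext x
    simp only [SimpleGraph.mem_neighborFinset, Wf, mem_union, mem_filter, mem_univ, true_and, mem_singleton]
    constructor
    · intro h
      by_cases hxv : x = v
      · exact Or.inl (Or.inl hxv)
      · by_cases hx : G.Adj v x
        · exact Or.inl (Or.inr ⟨hx, h⟩)
        · exact Or.inr ⟨⟨hxv, hx⟩, h⟩
    · rintro ((rfl | h) | h)
      · exact hy.symm
      · exact h.2
      · exact h.2
  rw [this, card_union_of_disjoint, card_union_of_disjoint]
  · simp
  · simp
  · rw [Finset.disjoint_left]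
    intro x hx hx'
    simp only [Wf, mem_filter, mem_union, mem_singleton, SimpleGraph.mem_neighborFinset] at hx hx'
    rcases hx with hx | hx
    · exact hx'.1.2.1 hx
    · exact hx'.1.2.2 hx.1

lemma cross_sum (v : V) :
    ∑ y ∈ G.neighborFinset v, #((Wf G v).filter (fun x => G.Adj y x)) = ∑ w ∈ Wf G v, #(Af G v w) := by
  unfold Af
  simp_rw [Finset.card_filter]
  rw [Finset.sum_comm]
  apply Finset.sum_congr rfl
  intro x _
  apply Finset.sum_congr rfl
  intro y _
  simp only [G.adj_comm]

lemma univ_split (v : V) : (univ : Finset V) = ({v} ∪ G.neighborFinset v) ∪ Wf G v := by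
  ext x
  simp only [Wf, mem_union, mem_filter, mem_univ, true_and, mem_singleton, SimpleGraph.mem_neighborFinset, true_iff]
  tauto

lemma disj1 (v : V) : Disjoint ({v} : Finset V) (G.neighborFinset v) := by simp

lemma disj2 (v : V) : Disjoint (({v} : Finset V) ∪ (G.neighborFinset v)) (Wf G v) := by
  rw [Finset.disjoint_left]
  intro x hx hx'
  simp only [Wf, mem_filter, mem_union, mem_singleton, SimpleGraph.mem_neighborFinset] at hx hx'
  tauto

lemma card_W (v : V) : 1 + G.degree v + #(Wf G v) = Fintype.card V := by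
  rw [← Finset.card_univ, univ_split (G := G) v, card_union_of_disjoint (disj2 v), card_union_of_disjoint (disj1 v)]
  simp

lemma sum_split (v : V) : ∑ x, G.degree x = G.degree v + ∑ y ∈ G.neighborFinset v, G.degree y + ∑ w ∈ Wf G v, G.degree w := by
  rw [univ_split (G := G) v, Finset.sum_union (disj2 v), Finset.sum_union (disj1 v)]
  simp

lemma main_ineq {v : V} {K : Finset (V × V)} {z : V × V → V} (hg : Good G v K z)
    (hmax : ∀ x, G.degree x ≤ G.degree v)
    (hcount : ∑ y ∈ G.neighborFinset v, #((G.neighborFinset v).filter (fun x => G.Adj y x)) ≤ 2 * #K) :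
    (144:ℝ) * #G.edgeFinset ≤ 144 * (G.degree v) * ((Fintype.card V : ℝ) - G.degree v) + 17 * ∑ w ∈ Wf G v, (df G v w : ℝ) := by
  have h1 : ∑ x, G.degree x = 2 * #G.edgeFinset := G.sum_degrees_eq_twice_card_edges
  have h2 := sum_split (G := G) v
  have h3 : ∑ y ∈ G.neighborFinset v, G.degree y = G.degree v + ∑ y ∈ G.neighborFinset v, #((G.neighborFinset v).filter (fun x => G.Adj y x)) + ∑ w ∈ Wf G v, #(Af G v w) := by
    rw [← cross_sum v]
    have : ∀ y ∈ G.neighborFinset v, G.degree y = 1 + #((G.neighborFinset v).filter (fun x => G.Adj y x)) + #((Wf G v).filter (fun x => G.Adj y x)) := by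
      intro y hy
      exact degree_near ((SimpleGraph.mem_neighborFinset _ _ _).1 hy)
    rw [Finset.sum_congr rfl this, Finset.sum_add_distrib, Finset.sum_add_distrib]
    simp
  have h4 : ∑ w ∈ Wf G v, G.degree w = ∑ w ∈ Wf G v, #(Af G v w) + ∑ w ∈ Wf G v, df G v w := by
    rw [← Finset.sum_add_distrib]
    exact Finset.sum_congr rfl (fun w hw => degree_far hw)
  have h5 : ∑ w ∈ Wf G v, #(Af G v w) + ∑ w ∈ Wf G v, #(Hf G v w) = #(Wf G v) * G.degree v := by
    rw [← Finset.sum_add_distrib]
    rw [Finset.sum_congr rfl (fun w _ => card_A_add_H v w)]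
    simp
  have h6 : ∑ w ∈ Wf G v, #(Kf G v K w) + ∑ w ∈ Wf G v, #(Uf G v K w) = ∑ w ∈ Wf G v, #(Hf G v w) := by
    rw [← Finset.sum_add_distrib]
    exact Finset.sum_congr rfl (fun w _ => card_K_add_U hg w)
  have h7 := card_K_eq hg
  have h8 := card_W (G := G) v
  have h9 := sum_ineq hg hmax
  have h10 : 2 * #G.edgeFinset + 2 * ∑ w ∈ Wf G v, #(Uf G v K w) ≤ 2 * (G.degree v) + 2 * (#(Wf G v) * G.degree v) + ∑ w ∈ Wf G v, df G v w := by
    omega
  have h11 : (2:ℝ) * #G.edgeFinset + 2 * ∑ w ∈ Wf G v, (#(Uf G v K w) : ℝ) ≤ 2 * (G.degree v) + 2 * (#(Wf G v) * G.degree v) + ∑ w ∈ Wf G v, (df G v w : ℝ) := by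
    exact_mod_cast h10
  have h12 : (1:ℝ) + G.degree v + #(Wf G v) = Fintype.card V := by exact_mod_cast h8
  have h13 : (#(Wf G v) : ℝ) = Fintype.card V - 1 - G.degree v := by linarith
  rw [h13] at h11
  nlinarith [h9, h11]

lemma sum_d_le (v : V) : ∑ w ∈ Wf G v, df G v w ≤ #(Wf G v) * (#(Wf G v) - 1) := by
  calc _ ≤ ∑ w ∈ Wf G v, (#(Wf G v) - 1) := by
        apply Finset.sum_le_sum
        intro w hw
        unfold df
        rw [← Finset.card_erase_of_mem hw]
        apply card_le_card
        intro x hx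
        rw [mem_filter] at hx
        rw [mem_erase]
        refine ⟨?_, hx.1⟩
        rintro rfl
        exact G.loopless.irrefl _ hx.2
    _ = _ := by simp

end Pool.Agent.Helper135.MS
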