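import Mathlib
import Pool.Agent.Helper135.MS4
set_option autoImplicit false
namespace Pool.Agent.Helper135.MS
open Finset

/-- combinatorial criticality -/
def CritC {V : Type*} (G : SimpleGraph V) : Prop :=
  ∀ y z, G.Adj y z → (∀ x, ¬ (G.Adj y x ∧ G.Adj x z)) ∨
    ∃ w, (G.Adj z w ∧ ¬ G.Adj y w ∧ y ≠ w ∧ ∀ x, G.Adj y x → G.Adj x w → x = z) ∨
      (G.Adj y w ∧ ¬ G.Adj z w ∧ z ≠ w ∧ ∀ x, G.Adj z x → G.Adj x w → x = y)

lemma critC_of {V : Type*} (G : SimpleGraph V) (h2 : G.ediam = 2)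
    (hc : ∀ e ∈ G.edgeSet, 2 < (G.deleteEdges {e}).ediam) : CritC G := by
  intro y z hyz
  have hh := hc s(y, z) hyz
  have : ∃ a b, 2 < (G.deleteEdges {s(y, z)}).edist a b := by
    by_contra hcon
    push Not at hcon
    exact absurd (SimpleGraph.ediam_le_of_edist_le hcon) (not_le.2 hh)
  obtain ⟨a, b, hab⟩ := this
  rw [SimpleGraph.two_lt_edist_iff] at hab
  obtain ⟨hne, hnadj, hcomm⟩ := hab
  have hna : G.Adj a b → s(a, b) = s(y, z) := by
    intro h
    by_contra hcon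
    exact hnadj (SimpleGraph.deleteEdges_adj.2 ⟨h, by simpa using hcon⟩)
  have hnc : ∀ x, G.Adj a x → s(a, x) ≠ s(y, z) → G.Adj b x → s(b, x) ≠ s(y, z) → False := by
    intro x h1 h2 h3 h4
    have : x ∈ (G.deleteEdges {s(y, z)}).commonNeighbors a b := by
      rw [SimpleGraph.mem_commonNeighbors]
      exact ⟨SimpleGraph.deleteEdges_adj.2 ⟨h1, by simpa using h2⟩, SimpleGraph.deleteEdges_adj.2 ⟨h3, by simpa using h4⟩⟩
    rw [hcomm] at this
    exact this
  have aux : ∀ a b x, a ≠ b → ¬ G.Adj a b →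
      (∀ x, G.Adj a x → s(a, x) ≠ s(y, z) → G.Adj b x → s(b, x) ≠ s(y, z) → False) →
      G.Adj a x → G.Adj b x → s(a, x) = s(y, z) →
      ∃ w, (G.Adj z w ∧ ¬ G.Adj y w ∧ y ≠ w ∧ ∀ x, G.Adj y x → G.Adj x w → x = z) ∨
      (G.Adj y w ∧ ¬ G.Adj z w ∧ z ≠ w ∧ ∀ x, G.Adj z x → G.Adj x w → x = y) := by
    intro a b x nne nadj nnc hax hbx hs
    rw [Sym2.eq_iff] at hs
    rcases hs with ⟨rfl, rfl⟩ | ⟨rfl, rfl⟩
    · refine ⟨b, Or.inl ⟨hbx.symm, nadj, nne, ?_⟩⟩
      intro x' h1 h2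
      by_contra hx
      refine nnc x' h1 ?_ h2.symm ?_
      · rw [Ne, Sym2.eq_iff]
        rintro (⟨_, h⟩ | ⟨h, h'⟩)
        · exact hx h
        · rw [h'] at h1; exact G.loopless.irrefl _ h1
      · rw [Ne, Sym2.eq_iff]
        rintro (⟨h, _⟩ | ⟨h, _⟩)
        · exact nne h.symm
        · rw [h] at nadj; exact nadj hax
    · refine ⟨b, Or.inr ⟨hbx.symm, nadj, nne, ?_⟩⟩
      intro x' h1 h2
      by_contra hx
      refine nnc x' h1 ?_ h2.symm ?_
      · rw [Ne, Sym2.eq_iff]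
        rintro (⟨h', h⟩ | ⟨_, h⟩)
        · rw [h] at h1; exact G.loopless.irrefl _ h1
        · exact hx h
      · rw [Ne, Sym2.eq_iff]
        rintro (⟨h, _⟩ | ⟨h, _⟩)
        · rw [h] at nadj; exact nadj hax
        · exact nne h.symm
  by_cases hGab : G.Adj a b
  · left
    rintro x ⟨hyx, hxz⟩
    have hs := hna hGab
    have n1 : s(y, x) ≠ s(y, z) := by
      rw [Ne, Sym2.eq_iff]
      rintro (⟨_, h⟩ | ⟨_, h⟩)
      · rw [h] at hxz; exact G.loopless.irrefl _ hxz
      · rw [h] at hyx; exact G.loopless.irrefl _ hyx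
    have n2 : s(z, x) ≠ s(y, z) := by
      rw [Ne, Sym2.eq_iff]
      rintro (⟨_, h⟩ | ⟨_, h⟩)
      · rw [h] at hxz; exact G.loopless.irrefl _ hxz
      · rw [h] at hyx; exact G.loopless.irrefl _ hyx
    rw [Sym2.eq_iff] at hs
    rcases hs with ⟨rfl, rfl⟩ | ⟨rfl, rfl⟩
    · exact hnc x hyx n1 hxz.symm n2
    · exact hnc x hxz.symm n2 hyx n1
  · right
    have hle : ¬ 2 < G.edist a b := by
      rw [not_lt, ← h2]
      exact SimpleGraph.edist_le_ediam
    rw [SimpleGraph.two_lt_edist_iff] at hle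
    have hx : ∃ x, G.Adj a x ∧ G.Adj b x := by
      by_contra hcon
      apply hle
      refine ⟨hne, hGab, ?_⟩
      ext x
      simp only [SimpleGraph.mem_commonNeighbors, Set.mem_empty_iff_false, iff_false]
      exact fun h => hcon ⟨x, h⟩
    obtain ⟨x, hax, hbx⟩ := hx
    by_cases hs : s(a, x) = s(y, z)
    · exact aux a b x hne hGab hnc hax hbx hs
    · have hs2 : s(b, x) = s(y, z) := by
        by_contra hcon
        exact hnc x hax hs hbx hcon
      exact aux b a x hne.symm (fun h => hGab h.symm) (fun x h1 h2 h3 h4 => hnc x h3 h4 h1 h2) hbx hax hs2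

variable {V : Type*} [Fintype V] [DecidableEq V] {G : SimpleGraph V} [DecidableRel G.Adj]

lemma exists_good (hc : CritC G) (v : V) :
    ∃ (K : Finset (V × V)) (z : V × V → V), Good G v K z ∧
      ∑ y ∈ G.neighborFinset v, #((G.neighborFinset v).filter (fun x => G.Adj y x)) ≤ 2 * #K := by
  classical
  set EN : Finset (Sym2 V) := G.edgeFinset.filter (fun e => ∀ x ∈ e, G.Adj v x) with hEN
  have hex : ∀ e ∈ EN, ∃ t : V × V × V, e = s(t.1, t.2.2) ∧ G.Adj v t.1 ∧ t.2.1 ∈ Wf G v ∧ ¬ G.Adj t.1 t.2.1 ∧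
      G.Adj v t.2.2 ∧ G.Adj t.1 t.2.2 ∧ G.Adj t.2.2 t.2.1 ∧ ∀ x, G.Adj t.1 x → G.Adj x t.2.1 → x = t.2.2 := by
    intro e he
    induction e with
    | _ y z =>
    simp only [hEN, mem_filter, SimpleGraph.mem_edgeFinset, SimpleGraph.mem_edgeSet, Sym2.mem_iff, forall_eq_or_imp, forall_eq] at he
    obtain ⟨hyz, hvy, hvz⟩ := he
    have key : ∀ y z w : V, G.Adj y z → G.Adj v y → G.Adj v z → G.Adj z w → ¬ G.Adj y w → y ≠ w →
        (∀ x, G.Adj y x → G.Adj x w → x = z) → w ∈ Wf G v := by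
      intro y z w hyz hvy hvz hzw hyw hne hu
      simp only [Wf, mem_filter, mem_univ, true_and]
      constructor
      · rintro rfl
        exact hyw hvy.symm
      · intro hvw
        have := hu v hvy.symm hvw
        subst this
        exact G.loopless.irrefl _ hvz
    rcases hc y z hyz with h | ⟨w, h | h⟩
    · exact absurd ⟨hvy.symm, hvz⟩ (h v)
    · obtain ⟨h1, h2, h3, h4⟩ := h
      exact ⟨(y, w, z), rfl, hvy, key y z w hyz hvy hvz h1 h2 h3 h4, h2, hvz, hyz, h1, h4⟩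
    · obtain ⟨h1, h2, h3, h4⟩ := h
      exact ⟨(z, w, y), Sym2.eq_swap, hvz, key z y w hyz.symm hvz hvy h1 h2 h3 h4, h2, hvy, hyz.symm, h1, h4⟩
  haveI : Nonempty V := ⟨v⟩
  choose! f hf using hex
  let z : V × V → V := fun p => Classical.epsilon (fun x => G.Adj p.1 x ∧ G.Adj x p.2)
  have hz : ∀ e ∈ EN, z ((f e).1, (f e).2.1) = (f e).2.2 := by
    intro e he
    obtain ⟨_, _, _, _, _, h6, h7, h8⟩ := hf e he
    have hs := Classical.epsilon_spec (p := fun x => G.Adj (f e).1 x ∧ G.Adj x (f e).2.1) ⟨_, h6, h7⟩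
    exact h8 _ hs.1 hs.2
  set K : Finset (V × V) := EN.image (fun e => ((f e).1, (f e).2.1)) with hK
  have hmem : ∀ y w, (y, w) ∈ K → ∃ e ∈ EN, (f e).1 = y ∧ (f e).2.1 = w ∧ (f e).2.2 = z (y, w) ∧ e = s(y, z (y, w)) := by
    intro y w h
    rw [hK, mem_image] at h
    obtain ⟨e, he, h⟩ := h
    have h1 := congrArg Prod.fst h
    have h2 := congrArg Prod.snd h
    simp only at h1 h2
    have h3 := hz e he
    rw [h1, h2] at h3
    refine ⟨e, he, h1, h2, h3.symm, ?_⟩
    have h4 := (hf e he).1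
    rw [h1, ← h3] at h4
    exact h4
  refine ⟨K, z, ⟨?_, ?_, ?_, ?_, ?_, ?_, ?_, ?_, ?_⟩, ?_⟩
  · intro y w h
    obtain ⟨e, he, rfl, rfl, h3, _⟩ := hmem y w h
    exact (hf e he).2.1
  · intro y w h
    obtain ⟨e, he, rfl, rfl, h3, _⟩ := hmem y w h
    exact (hf e he).2.2.1
  · intro y w h
    obtain ⟨e, he, rfl, rfl, h3, _⟩ := hmem y w h
    exact (hf e he).2.2.2.1
  · intro y w h
    obtain ⟨e, he, rfl, rfl, h3, _⟩ := hmem y w h
    rw [← h3]
    exact (hf e he).2.2.2.2.1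
  · intro y w h
    obtain ⟨e, he, rfl, rfl, h3, _⟩ := hmem y w h
    rw [← h3]
    exact (hf e he).2.2.2.2.2.1
  · intro y w h
    obtain ⟨e, he, rfl, rfl, h3, _⟩ := hmem y w h
    rw [← h3]
    exact (hf e he).2.2.2.2.2.2.1
  · intro y w h
    obtain ⟨e, he, rfl, rfl, h3, _⟩ := hmem y w h
    rw [← h3]
    exact (hf e he).2.2.2.2.2.2.2
  · intro y w w' h h' heq
    obtain ⟨e, he, h1, h2, h3, h4⟩ := hmem y w h
    obtain ⟨e', he', h1', h2', h3', h4'⟩ := hmem y w' h'
    have : e = e' := by rw [h4, h4', heq]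
    subst this
    rw [← h2, ← h2']
  · intro y w y' w' h h' heq
    obtain ⟨e, he, h1, h2, h3, h4⟩ := hmem y w h
    obtain ⟨e', he', h1', h2', h3', h4'⟩ := hmem y' w' h'
    have : e = e' := by rw [h4, h4', heq]
    subst this
    exact ⟨by rw [← h1, ← h1'], by rw [← h2, ← h2']⟩
  · have hcard : #K = #EN := by
      rw [hK]
      apply Finset.card_image_of_injOn
      intro e he e' he' h
      simp only [Prod.mk.injEq] at h
      have h1 := hz e he
      have h2 := hz e' he'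
      have h3 := (hf e he).1
      have h4 := (hf e' he').1
      rw [h3, h4, ← h1, ← h2, h.1, h.2]
    rw [hcard]
    have e1 : ∑ y ∈ G.neighborFinset v, #((G.neighborFinset v).filter (fun x => G.Adj y x))
        = #((G.neighborFinset v ×ˢ G.neighborFinset v).filter (fun p => G.Adj p.1 p.2)) := by
      rw [Finset.card_filter, Finset.sum_product]
      apply Finset.sum_congr rfl
      intro y _
      rw [Finset.card_filter]
    rw [e1]
    apply Finset.card_le_mul_card_image_of_maps_to (f := fun p : V × V => s(p.1, p.2))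
    · rintro ⟨a, b⟩ hp
      simp only [mem_filter, mem_product, SimpleGraph.mem_neighborFinset] at hp
      simp only [hEN, mem_filter, SimpleGraph.mem_edgeFinset, SimpleGraph.mem_edgeSet, Sym2.mem_iff, forall_eq_or_imp, forall_eq]
      exact ⟨hp.2, hp.1.1, hp.1.2⟩
    · intro e _
      induction e with
      | _ a b =>
      calc _ ≤ #({(a, b), (b, a)} : Finset (V × V)) := by
            apply card_le_card
            rintro ⟨c, d⟩ h
            simp only [mem_filter, Sym2.eq_iff] at h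
            simp only [mem_insert, mem_singleton, Prod.mk.injEq]
            exact h.2
        _ ≤ 2 := Finset.card_le_two

end Pool.Agent.Helper135.MS
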