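import Mathlib
import Pool.Agent.Helper135.MS5
set_option autoImplicit false
namespace Pool.Agent.Helper135.MS
open Finset

variable {V : Type*} [Fintype V] [DecidableEq V] {G : SimpleGraph V} [DecidableRel G.Adj]

/-- the inequality (U) in the form needed -/
lemma edge_bound_of_half {v : V} {K : Finset (V × V)} {z : V × V → V} (hg : Good G v K z)
    (hcount : ∑ y ∈ G.neighborFinset v, #((G.neighborFinset v).filter (fun x => G.Adj y x)) ≤ 2 * #K)
    (h9 : (1/2 : ℝ) * ∑ w ∈ Wf G v, (df G v w : ℝ) ≤ ∑ w ∈ Wf G v, (#(Uf G v K w) : ℝ)) :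
    #G.edgeFinset ≤ G.degree v * (Fintype.card V - G.degree v) := by
  have h1 : ∑ x, G.degree x = 2 * #G.edgeFinset := G.sum_degrees_eq_twice_card_edges
  have h2 := sum_split (G := G) v
  have h3 : ∑ y ∈ G.neighborFinset v, G.degree y = G.degree v + ∑ y ∈ G.neighborFinset v, #((G.neighborFinset v).filter (fun x => G.Adj y x)) + ∑ w ∈ Wf G v, #(Af G v w) := by
    rw [← cross_sum v]
    have : ∀ y ∈ G.neighborFinset v, G.degree y = 1 + #((G.neighborFinset v).filter (fun x => G.Adj y x)) + #((Wf G v).filter (fun x => G.Adj y x)) := by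
      intro y hy
      exact degree_near ((SimpleGraph.mem_neighborFinset _ _ _).1 hy)
    rw [Finset.sum_congr rfl this, Finset.sum_add_distrib, Finset.sum_add_distrib]
    simp
  have h4 : ∑ w ∈ Wf G v, G.degree w = ∑ w ∈ Wf G v, #(Af G v w) + ∑ w ∈ Wf G v, df G v w := by
    rw [← Finset.sum_add_distrib]
    exact Finset.sum_congr rfl (fun w hw => degree_far hw)
  have h5 : ∑ w ∈ Wf G v, #(Af G v w) + ∑ w ∈ Wf G v, #(Hf G v w) = #(Wf G v) * G.degree v := by
    rw [← Finset.sum_add_distrib]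
    rw [Finset.sum_congr rfl (fun w _ => card_A_add_H v w)]
    simp
  have h6 : ∑ w ∈ Wf G v, #(Kf G v K w) + ∑ w ∈ Wf G v, #(Uf G v K w) = ∑ w ∈ Wf G v, #(Hf G v w) := by
    rw [← Finset.sum_add_distrib]
    exact Finset.sum_congr rfl (fun w _ => card_K_add_U hg w)
  have h7 := card_K_eq hg
  have h8 := card_W (G := G) v
  have h9' : ∑ w ∈ Wf G v, df G v w ≤ 2 * ∑ w ∈ Wf G v, #(Uf G v K w) := by
    have : (∑ w ∈ Wf G v, (df G v w : ℝ)) ≤ 2 * ∑ w ∈ Wf G v, (#(Uf G v K w) : ℝ) := by linarith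
    exact_mod_cast this
  have h10 : #G.edgeFinset ≤ G.degree v + #(Wf G v) * G.degree v := by omega
  have h11 : Fintype.card V - G.degree v = 1 + #(Wf G v) := by omega
  rw [h11]
  calc #G.edgeFinset ≤ G.degree v + #(Wf G v) * G.degree v := h10
    _ = G.degree v * (1 + #(Wf G v)) := by ring

lemma mul_sub_le_quarter (a n : ℕ) : a * (n - a) ≤ n ^ 2 / 4 := by
  rw [Nat.le_div_iff_mul_le (by norm_num)]
  rcases Nat.le_total a n with h | h
  · obtain ⟨b, rfl⟩ := Nat.exists_eq_add_of_le h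
    rw [Nat.add_sub_cancel_left]
    nlinarith [sq_nonneg ((a:ℤ) - b), sq_nonneg ((a:ℝ)-b), Nat.mul_le_mul_left a (le_refl b), mul_self_nonneg ((a:ℤ)-b), four_mul_le_sq_add a b]
  · rw [Nat.sub_eq_zero_of_le h]; simp

lemma half_mul_half (n : ℕ) : (n / 2) * (n - n / 2) = n ^ 2 / 4 := by
  rcases Nat.even_or_odd' n with ⟨k, rfl | rfl⟩
  · have h1 : 2 * k / 2 = k := by omega
    rw [h1]
    have h2 : 2 * k - k = k := by omega
    rw [h2]
    have h3 : (2 * k) ^ 2 = 4 * (k * k) := by ring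
    rw [h3, Nat.mul_div_cancel_left _ (by norm_num)]
  · have h1 : (2 * k + 1) / 2 = k := by omega
    rw [h1]
    have h2 : 2 * k + 1 - k = k + 1 := by omega
    rw [h2]
    have h3 : (2 * k + 1) ^ 2 = 1 + 4 * (k * (k + 1)) := by ring
    rw [h3, Nat.add_mul_div_left _ _ (by norm_num)]
    simp

lemma cb_card (a b : ℕ) [Fintype (completeBipartiteGraph (Fin a) (Fin b)).edgeSet] :
    #(completeBipartiteGraph (Fin a) (Fin b)).edgeFinset = a * b := by
  classical
  have h : (completeBipartiteGraph (Fin a) (Fin b)).edgeFinset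
      = (univ : Finset (Fin a × Fin b)).image (fun p => s(Sum.inl p.1, Sum.inr p.2)) := by
    ext e
    induction e with
    | _ x y =>
    rcases x with x | x <;> rcases y with y | y <;>
      simp [SimpleGraph.mem_edgeFinset, completeBipartiteGraph, Sym2.eq_iff]
  rw [h, Finset.card_image_of_injective]
  · simp
  · rintro ⟨p1, p2⟩ ⟨q1, q2⟩ hpq
    simp [Sym2.eq_iff] at hpq
    simp [hpq.1, hpq.2]

/-- final assembly, from the two missing ingredients -/
theorem assembly
    (half : ∀ (V : Type) [Fintype V] [DecidableEq V] (G : SimpleGraph V) [DecidableRel G.Adj], CritC G →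
      ∀ (v : V) (K : Finset (V × V)) (z : V × V → V), Good G v K z → (∀ x, G.degree x ≤ G.degree v) →
      (1/2 : ℝ) * ∑ w ∈ Wf G v, (df G v w : ℝ) ≤ ∑ w ∈ Wf G v, (#(Uf G v K w) : ℝ))
    (equality : ∀ (V : Type) [Fintype V] [DecidableEq V] (G : SimpleGraph V) [DecidableRel G.Adj], G.ediam = 2 → CritC G →
      ∀ v : V, (∀ x, G.degree x ≤ G.degree v) →
      #G.edgeFinset ≤ G.degree v * (Fintype.card V - G.degree v) →
      #G.edgeFinset = Fintype.card V ^ 2 / 4 →
      Nonempty (G ≃g completeBipartiteGraph (Fin (Fintype.card V / 2)) (Fin (Fintype.card V - Fintype.card V / 2)))) :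
    ∀ (V : Type) [Fintype V] (G : SimpleGraph V),
      G.ediam = 2 →
      (∀ e ∈ G.edgeSet, 2 < (G.deleteEdges {e}).ediam) →
      G.edgeSet.ncard ≤ Fintype.card V ^ 2 / 4 ∧
        (G.edgeSet.ncard = Fintype.card V ^ 2 / 4 ↔
          Nonempty (G ≃g completeBipartiteGraph (Fin (Fintype.card V / 2))
            (Fin (Fintype.card V - Fintype.card V / 2)))) := by
  intro V _ G hd hcrit
  classical
  have hc : CritC G := critC_of G hd hcrit
  have hcard : G.edgeSet.ncard = #G.edgeFinset := by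
    rw [← SimpleGraph.coe_edgeFinset, Set.ncard_coe_finset]
  haveI : Nontrivial V := G.nontrivial_of_ediam_ne_zero (by rw [hd]; decide)
  obtain ⟨v, -, hv⟩ := Finset.exists_max_image (univ : Finset V) (fun x => G.degree x) ⟨Classical.arbitrary V, mem_univ _⟩
  have hmax : ∀ x, G.degree x ≤ G.degree v := fun x => hv x (mem_univ x)
  obtain ⟨K, z, hg, hcount⟩ := exists_good hc v
  have hb := edge_bound_of_half hg hcount (half V G hc v K z hg hmax)
  rw [hcard]
  refine ⟨hb.trans (mul_sub_le_quarter _ _), ?_, ?_⟩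
  · intro h
    exact equality V G hd hc v hmax hb h
  · rintro ⟨f⟩
    have h1 := f.card_edgeFinset_eq
    rw [h1, cb_card, half_mul_half]

end Pool.Agent.Helper135.MS
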