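import Mathlib
import Pool.Agent.Helper135.MS6
import Pool.Agent.Helper192.MS.Half
import Pool.Agent.Helper65.MSEq3
set_option autoImplicit false
namespace Pool.Agent.Helper135.MS
open Finset

/-- For every graph of diameter 2 all of whose edges are critical: `E ≤ Δ (n - Δ)`. -/
theorem edge_bound {V : Type*} [Fintype V] [DecidableEq V] {G : SimpleGraph V} [DecidableRel G.Adj]
    (hc : CritC G) (v : V) (hmax : ∀ x, G.degree x ≤ G.degree v) :
    #G.edgeFinset ≤ G.degree v * (Fintype.card V - G.degree v) := by
  obtain ⟨K, z, hg, hcount⟩ := exists_good hc v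
  exact edge_bound_of_half hg hcount (Pool.Agent.Helper192.MS.sum_ineq_half hg hmax)

/-- The Murty-Simon conjecture. -/
theorem murty_simon :
    ∀ (V : Type) [Fintype V] (G : SimpleGraph V),
      G.ediam = 2 →
      (∀ e ∈ G.edgeSet, 2 < (G.deleteEdges {e}).ediam) →
      G.edgeSet.ncard ≤ Fintype.card V ^ 2 / 4 ∧
        (G.edgeSet.ncard = Fintype.card V ^ 2 / 4 ↔
          Nonempty (G ≃g completeBipartiteGraph (Fin (Fintype.card V / 2))
            (Fin (Fintype.card V - Fintype.card V / 2)))) := by
  intro V _ G hd hcrit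
  classical
  have hc : CritC G := critC_of G hd hcrit
  haveI : Nontrivial V := G.nontrivial_of_ediam_ne_zero (by rw [hd]; decide)
  obtain ⟨v, -, hv⟩ := Finset.exists_max_image (univ : Finset V) (fun x => G.degree x) ⟨Classical.arbitrary V, mem_univ _⟩
  have hmax : ∀ x, G.degree x ≤ G.degree v := fun x => hv x (mem_univ x)
  exact Pool.Agent.Helper65.MS.full_of_bound hc (Pool.Agent.Helper65.MS.two_le_card G hd) v hmax (edge_bound hc v hmax)

end Pool.Agent.Helper135.MS
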